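import Pool.Agent.helper11.TX.Spec

/-! Row TY: VW 2 N is at most (7/9 + ε) VW 30 N for large N. -/

namespace Pool.Agent.helper11.TX

open Finset Pool.Agent.helper85.FC

/-- The sum of `φ a` over the `a ≤ N` prime to `b`. -/
noncomputable def TY_A (φ : ℕ → ℝ) (b N : ℕ) : ℝ := ∑ a ∈ Icc 1 N with Nat.Coprime a b, φ a

/-- The sum of `f a * g b` over the coprime pairs. -/
noncomputable def TY_B (f g : ℕ → ℝ) (N : ℕ) : ℝ := ∑ a ∈ Icc 1 N, f a * TY_A g a N

noncomputable def TY_0 (l : ℕ) (φ : ℕ → ℝ) (n : ℕ) : ℝ := if l ∣ n then 0 else φ n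

noncomputable def TY_1 (l : ℕ) (φ : ℕ → ℝ) (n : ℕ) : ℝ := if l ∣ n then φ n else 0

theorem TY_0_nonneg {l : ℕ} {φ : ℕ → ℝ} (h : ∀ n, 0 ≤ φ n) (n : ℕ) : 0 ≤ TY_0 l φ n := by
  unfold TY_0; split_ifs <;> simp [h]

theorem TY_1_nonneg {l : ℕ} {φ : ℕ → ℝ} (h : ∀ n, 0 ≤ φ n) (n : ℕ) : 0 ≤ TY_1 l φ n := by
  unfold TY_1; split_ifs <;> simp [h]

theorem TY_A_nonneg {φ : ℕ → ℝ} (h : ∀ n, 0 ≤ φ n) (b N : ℕ) : 0 ≤ TY_A φ b N :=
  Finset.sum_nonneg fun a _ => h a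

theorem TY_A_mono {φ : ℕ → ℝ} (h : ∀ n, 0 ≤ φ n) (b : ℕ) {N N' : ℕ} (hN : N ≤ N') :
    TY_A φ b N ≤ TY_A φ b N' := by
  refine Finset.sum_le_sum_of_subset_of_nonneg ?_ fun a _ _ => h a
  intro a ha
  rw [Finset.mem_filter, Finset.mem_Icc] at ha ⊢
  exact ⟨⟨ha.1.1, ha.1.2.trans hN⟩, ha.2⟩

theorem TY_rec {l : ℕ} (hl : l.Prime) (φ : ℕ → ℝ) (c : ℝ)
    (h1 : ∀ n, ¬ l ∣ n → φ (l * n) = c / l * φ n)
    (h2 : ∀ n, 0 < n → l ∣ n → φ (l * n) = φ n / l) (b : ℕ) (hb : ¬ l ∣ b) (N : ℕ) :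
    TY_A (TY_1 l φ) b N = (c * TY_A (TY_0 l φ) b (N / l) + TY_A (TY_1 l φ) b (N / l)) / l := by
  have hl0 : 0 < l := hl.pos
  have e1 : TY_A (TY_1 l φ) b N =
      ∑ a ∈ (Icc 1 N).filter (fun a => Nat.Coprime a b ∧ l ∣ a), φ a := by
    unfold TY_A TY_1
    rw [← Finset.sum_filter, Finset.filter_filter]
  have e2 : ∑ a ∈ (Icc 1 N).filter (fun a => Nat.Coprime a b ∧ l ∣ a), φ a =
      ∑ a ∈ (Icc 1 (N / l)).filter (fun a => Nat.Coprime a b), φ (l * a) := by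
    refine Finset.sum_nbij' (fun a => a / l) (fun a => l * a) ?_ ?_ ?_ ?_ ?_
    · intro a ha
      rw [Finset.mem_filter, Finset.mem_Icc] at ha
      obtain ⟨⟨h3, h4⟩, h5, k, rfl⟩ := ha
      rw [Finset.mem_filter, Finset.mem_Icc, Nat.mul_div_cancel_left _ hl0]
      refine ⟨⟨?_, ?_⟩, Nat.Coprime.coprime_mul_left h5⟩
      · rcases Nat.eq_zero_or_pos k with h0 | h0
        · rw [h0] at h3; simp at h3
        · exact h0
      · rw [Nat.le_div_iff_mul_le hl0, mul_comm]; exact h4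
    · intro a ha
      rw [Finset.mem_filter, Finset.mem_Icc] at ha
      rw [Finset.mem_filter, Finset.mem_Icc]
      refine ⟨⟨Nat.mul_pos hl0 ha.1.1, ?_⟩, ?_, Dvd.intro a rfl⟩
      · have := ha.1.2
        rw [Nat.le_div_iff_mul_le hl0, mul_comm] at this
        exact this
      · exact Nat.Coprime.mul_left ((Nat.Prime.coprime_iff_not_dvd hl).2 hb) ha.2
    · intro a ha
      rw [Finset.mem_filter] at ha
      exact Nat.mul_div_cancel' ha.2.2
    · intro a _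
      exact Nat.mul_div_cancel_left _ hl0
    · intro a ha
      rw [Finset.mem_filter] at ha
      rw [Nat.mul_div_cancel' ha.2.2]
  rw [e1, e2]
  unfold TY_A
  rw [Finset.mul_sum, ← Finset.sum_add_distrib, Finset.sum_div]
  refine Finset.sum_congr rfl fun a ha => ?_
  rw [Finset.mem_filter, Finset.mem_Icc] at ha
  unfold TY_0 TY_1
  by_cases hd : l ∣ a
  · rw [if_pos hd, if_pos hd, h2 a (by omega) hd]; ring
  · rw [if_neg hd, if_neg hd, h1 a hd]; ring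

theorem TY_up {l : ℕ} (hl : l.Prime) (φ : ℕ → ℝ) (hφ : ∀ n, 0 ≤ φ n) (c : ℝ) (hc : 0 ≤ c)
    (h1 : ∀ n, ¬ l ∣ n → φ (l * n) = c / l * φ n)
    (h2 : ∀ n, 0 < n → l ∣ n → φ (l * n) = φ n / l) (b : ℕ) (hb : ¬ l ∣ b) (N : ℕ) :
    TY_A (TY_1 l φ) b N ≤ c / (l - 1) * TY_A (TY_0 l φ) b N := by
  have hl1 : (1:ℝ) < l := by exact_mod_cast hl.one_lt
  induction N using Nat.strong_induction_on with
  | _ N ih =>
    rcases Nat.eq_zero_or_pos N with h0 | h0
    · subst h0; simp [TY_A]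
    · have h3 := ih (N / l) (Nat.div_lt_self h0 hl.one_lt)
      rw [TY_rec hl φ c h1 h2 b hb N, div_le_iff₀ (by linarith)]
      have h4 := TY_A_mono (TY_0_nonneg (l := l) hφ) b (Nat.div_le_self N l)
      have h5 : 0 ≤ c / ((l:ℝ) - 1) := div_nonneg hc (by linarith)
      have h6 : c + c / ((l:ℝ) - 1) = c / ((l:ℝ) - 1) * l := by
        have : (l:ℝ) - 1 ≠ 0 := by linarith
        field_simp
        ring
      calc c * TY_A (TY_0 l φ) b (N / l) + TY_A (TY_1 l φ) b (N / l)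
          ≤ c * TY_A (TY_0 l φ) b (N / l) + c / (l - 1) * TY_A (TY_0 l φ) b (N / l) := by linarith
        _ = (c / ((l:ℝ) - 1) * l) * TY_A (TY_0 l φ) b (N / l) := by rw [← h6]; ring
        _ ≤ (c / ((l:ℝ) - 1) * l) * TY_A (TY_0 l φ) b N :=
          mul_le_mul_of_nonneg_left h4 (by positivity)
        _ = c / (l - 1) * TY_A (TY_0 l φ) b N * l := by ring

theorem TY_lo {l : ℕ} (hl : l.Prime) (φ : ℕ → ℝ) (hφ : ∀ n, 0 ≤ φ n) (c : ℝ) (hc : 0 ≤ c)
    (h1 : ∀ n, ¬ l ∣ n → φ (l * n) = c / l * φ n)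
    (h2 : ∀ n, 0 < n → l ∣ n → φ (l * n) = φ n / l) (b : ℕ) (hb : ¬ l ∣ b) (K : ℕ) :
    ∀ N : ℕ, c / (l - 1) * (1 - (1 / (l : ℝ)) ^ K) * TY_A (TY_0 l φ) b (N / l ^ K) ≤
      TY_A (TY_1 l φ) b N := by
  have hl1 : (1:ℝ) < l := by exact_mod_cast hl.one_lt
  have h5 : 0 ≤ c / ((l:ℝ) - 1) := div_nonneg hc (by linarith)
  induction K with
  | zero =>
    intro N
    simp only [pow_zero, sub_self, mul_zero, zero_mul]
    exact TY_A_nonneg (TY_1_nonneg hφ) b N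
  | succ K ih =>
    intro N
    have h3 := ih (N / l)
    rw [Nat.div_div_eq_div_mul] at h3
    have hp : l ^ (K + 1) = l * l ^ K := by rw [pow_succ l K, mul_comm]
    rw [hp]
    rw [TY_rec hl φ c h1 h2 b hb N, le_div_iff₀ (by linarith)]
    have h4 : TY_A (TY_0 l φ) b (N / (l * l ^ K)) ≤ TY_A (TY_0 l φ) b (N / l) := by
      refine TY_A_mono (TY_0_nonneg (l := l) hφ) b ?_
      rw [← Nat.div_div_eq_div_mul]
      exact Nat.div_le_self _ _
    have h6 : c / ((l:ℝ) - 1) * (1 - (1 / (l : ℝ)) ^ (K + 1)) * l =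
        c + c / ((l:ℝ) - 1) * (1 - (1 / (l : ℝ)) ^ K) := by
      have h7 : (l:ℝ) - 1 ≠ 0 := by linarith
      have h8 : (l:ℝ) ≠ 0 := by linarith
      rw [pow_succ (1 / (l:ℝ)) K]
      field_simp
      ring
    calc c / (l - 1) * (1 - (1 / (l : ℝ)) ^ (K + 1)) * TY_A (TY_0 l φ) b (N / (l * l ^ K)) * l
        = (c / ((l:ℝ) - 1) * (1 - (1 / (l : ℝ)) ^ (K + 1)) * l) *
            TY_A (TY_0 l φ) b (N / (l * l ^ K)) := by ring
      _ = c * TY_A (TY_0 l φ) b (N / (l * l ^ K)) +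
            c / ((l:ℝ) - 1) * (1 - (1 / (l : ℝ)) ^ K) * TY_A (TY_0 l φ) b (N / (l * l ^ K)) := by
          rw [h6]; ring
      _ ≤ c * TY_A (TY_0 l φ) b (N / l) + TY_A (TY_1 l φ) b (N / l) :=
          add_le_add (mul_le_mul_of_nonneg_left h4 hc) h3

theorem TY_A_add (f g : ℕ → ℝ) (b N : ℕ) :
    TY_A (fun n => f n + g n) b N = TY_A f b N + TY_A g b N := by
  unfold TY_A
  rw [Finset.sum_add_distrib]

theorem TY_B_comm (f g : ℕ → ℝ) (N : ℕ) : TY_B f g N = TY_B g f N := by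
  have h : ∀ f g : ℕ → ℝ, TY_B f g N =
      ∑ a ∈ Icc 1 N, ∑ b ∈ Icc 1 N, if Nat.Coprime b a then f a * g b else 0 := by
    intro f g
    unfold TY_B TY_A
    refine Finset.sum_congr rfl fun a _ => ?_
    rw [Finset.mul_sum, Finset.sum_filter]
  rw [h, h, Finset.sum_comm]
  refine Finset.sum_congr rfl fun a _ => Finset.sum_congr rfl fun b _ => ?_
  by_cases hc : Nat.Coprime a b
  · rw [if_pos hc, if_pos hc.symm, mul_comm]
  · rw [if_neg hc, if_neg (fun h' => hc h'.symm)]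

theorem TY_split (l : ℕ) (φ : ℕ → ℝ) (n : ℕ) : φ n = TY_0 l φ n + TY_1 l φ n := by
  unfold TY_0 TY_1; split_ifs <;> simp

theorem TY_B_split {l : ℕ} (hl : l.Prime) (φ : ℕ → ℝ) (N : ℕ) :
    TY_B φ φ N = TY_B (TY_0 l φ) (TY_0 l φ) N + 2 * TY_B (TY_0 l φ) (TY_1 l φ) N := by
  have h1 : TY_B φ φ N = TY_B (TY_0 l φ) (TY_0 l φ) N + TY_B (TY_0 l φ) (TY_1 l φ) N +
      (TY_B (TY_1 l φ) (TY_0 l φ) N + TY_B (TY_1 l φ) (TY_1 l φ) N) := by
    unfold TY_B
    rw [← Finset.sum_add_distrib, ← Finset.sum_add_distrib, ← Finset.sum_add_distrib]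
    refine Finset.sum_congr rfl fun a _ => ?_
    have h2 : TY_A φ a N = TY_A (TY_0 l φ) a N + TY_A (TY_1 l φ) a N := by
      rw [← TY_A_add]
      unfold TY_A
      exact Finset.sum_congr rfl fun b _ => TY_split l φ b
    rw [h2, TY_split l φ a]
    have e0 : TY_0 l (TY_0 l φ) = TY_0 l φ := by
      funext n; unfold TY_0; split_ifs <;> rfl
    ring_nf
  have h3 : TY_B (TY_1 l φ) (TY_1 l φ) N = 0 := by
    unfold TY_B TY_A
    refine Finset.sum_eq_zero fun a ha => ?_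
    by_cases hd : l ∣ a
    · have : ∑ b ∈ Icc 1 N with Nat.Coprime b a, TY_1 l φ b = 0 := by
        refine Finset.sum_eq_zero fun b hb => ?_
        rw [Finset.mem_filter] at hb
        unfold TY_1
        rw [if_neg]
        intro hdb
        exact Nat.Prime.one_lt hl |>.ne' (Nat.dvd_one.1 (hb.2 ▸ Nat.dvd_gcd hdb hd))
      rw [this, mul_zero]
    · unfold TY_1
      rw [if_neg hd, zero_mul]
  rw [h1, h3, TY_B_comm (TY_1 l φ) (TY_0 l φ)]
  ring

theorem TY_B_up {l : ℕ} (hl : l.Prime) (φ : ℕ → ℝ) (hφ : ∀ n, 0 ≤ φ n) (c : ℝ) (hc : 0 ≤ c)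
    (h1 : ∀ n, ¬ l ∣ n → φ (l * n) = c / l * φ n)
    (h2 : ∀ n, 0 < n → l ∣ n → φ (l * n) = φ n / l) (N : ℕ) :
    TY_B φ φ N ≤ (1 + 2 * (c / (l - 1))) * TY_B (TY_0 l φ) (TY_0 l φ) N := by
  have h3 : TY_B (TY_0 l φ) (TY_1 l φ) N ≤ c / (l - 1) * TY_B (TY_0 l φ) (TY_0 l φ) N := by
    unfold TY_B
    rw [Finset.mul_sum]
    refine Finset.sum_le_sum fun a _ => ?_
    by_cases hd : l ∣ a
    · have : TY_0 l φ a = 0 := if_pos hd
      rw [this]; simp
    · have := mul_le_mul_of_nonneg_left (TY_up hl φ hφ c hc h1 h2 a hd N)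
        (TY_0_nonneg (l := l) hφ a)
      linarith
  rw [TY_B_split hl φ N]
  linarith

theorem TY_B_mono (φ : ℕ → ℝ) (hφ : ∀ n, 0 ≤ φ n) {N N' : ℕ} (h : N ≤ N') :
    TY_B φ φ N ≤ TY_B φ φ N' := by
  unfold TY_B
  refine (Finset.sum_le_sum fun a _ =>
    mul_le_mul_of_nonneg_left (TY_A_mono hφ a h) (hφ a)).trans ?_
  refine Finset.sum_le_sum_of_subset_of_nonneg (Finset.Icc_subset_Icc le_rfl h) fun a _ _ =>
    mul_nonneg (hφ a) (TY_A_nonneg hφ a N')

theorem TY_B_lo {l : ℕ} (hl : l.Prime) (φ : ℕ → ℝ) (hφ : ∀ n, 0 ≤ φ n) (c : ℝ) (hc : 0 ≤ c)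
    (h1 : ∀ n, ¬ l ∣ n → φ (l * n) = c / l * φ n)
    (h2 : ∀ n, 0 < n → l ∣ n → φ (l * n) = φ n / l) (K N : ℕ) :
    (1 + 2 * (c / (l - 1) * (1 - (1 / (l : ℝ)) ^ K))) *
      TY_B (TY_0 l φ) (TY_0 l φ) (N / l ^ K) ≤ TY_B φ φ N := by
  have hl1 : (1:ℝ) < l := by exact_mod_cast hl.one_lt
  have hle : N / l ^ K ≤ N := Nat.div_le_self _ _
  have h3 : c / (l - 1) * (1 - (1 / (l : ℝ)) ^ K) *
      TY_B (TY_0 l φ) (TY_0 l φ) (N / l ^ K) ≤ TY_B (TY_0 l φ) (TY_1 l φ) N := by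
    unfold TY_B
    rw [Finset.mul_sum]
    refine (Finset.sum_le_sum (g := fun a => TY_0 l φ a * TY_A (TY_1 l φ) a N)
      fun a _ => ?_).trans ?_
    · by_cases hd : l ∣ a
      · have : TY_0 l φ a = 0 := if_pos hd
        rw [this]; simp
      · have := mul_le_mul_of_nonneg_left (TY_lo hl φ hφ c hc h1 h2 a hd K N)
          (TY_0_nonneg (l := l) hφ a)
        linarith
    · exact Finset.sum_le_sum_of_subset_of_nonneg (Finset.Icc_subset_Icc le_rfl hle)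
        fun a _ _ => mul_nonneg (TY_0_nonneg hφ a) (TY_A_nonneg (TY_1_nonneg hφ) a N)
  have h4 := TY_B_mono (TY_0 l φ) (TY_0_nonneg hφ) hle
  rw [TY_B_split hl φ N]
  linarith

/-! ### Harmonic sums -/

noncomputable def TY_H (N : ℕ) : ℝ := ∑ a ∈ Icc 1 N, 1 / (a : ℝ)

theorem TY_H_eq (N : ℕ) : TY_H N = ((harmonic N : ℚ) : ℝ) := by
  unfold TY_H
  rw [harmonic_eq_sum_Icc]
  push_cast
  exact Finset.sum_congr rfl fun a _ => one_div _

theorem TY_union (R N : ℕ) (h : R ≤ N) : Icc 1 N = Icc 1 R ∪ Ioc R N := by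
  ext a
  simp only [Finset.mem_Icc, Finset.mem_union, Finset.mem_Ioc]
  omega

theorem TY_tail (N Q : ℕ) (hN : 1 ≤ N) (hQ : 1 ≤ Q) :
    ∑ b ∈ Ioc (N / Q) N, 1 / (b : ℝ) ≤ 1 + Real.log Q := by
  have h1 : TY_H N = TY_H (N / Q) + ∑ b ∈ Ioc (N / Q) N, 1 / (b : ℝ) := by
    unfold TY_H
    rw [← Finset.sum_union]
    · exact Finset.sum_congr (TY_union _ _ (Nat.div_le_self N Q)) fun _ _ => rfl
    · rw [Finset.disjoint_left]
      intro a ha hb
      rw [Finset.mem_Icc] at ha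
      rw [Finset.mem_Ioc] at hb
      omega
  have h2 := harmonic_le_one_add_log N
  have h3 := log_add_one_le_harmonic (N / Q)
  rw [← TY_H_eq] at h2 h3
  have h4 : Real.log N - Real.log Q ≤ Real.log ((N / Q + 1 : ℕ) : ℝ) := by
    have hN' : (0:ℝ) < N := by exact_mod_cast hN
    have hQ' : (0:ℝ) < Q := by exact_mod_cast hQ
    rw [← Real.log_div hN'.ne' hQ'.ne']
    refine Real.log_le_log (by positivity) ?_
    rw [div_le_iff₀ hQ']
    have := Nat.lt_mul_div_succ N (show 0 < Q by omega)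
    have h5 : (N:ℝ) < (Q:ℝ) * ((N / Q + 1 : ℕ) : ℝ) := by exact_mod_cast this
    linarith
  linarith

theorem TY_E (ψ : ℕ → ℝ) (h0 : ∀ n, 0 ≤ ψ n) (h1 : ∀ n, ψ n ≤ 1 / (n : ℝ)) (N Q : ℕ)
    (hN : 1 ≤ N) (hQ : 1 ≤ Q) :
    TY_B ψ ψ N ≤ TY_B ψ ψ (N / Q) + 2 * (1 + Real.log N) * (1 + Real.log Q) := by
  have hT := TY_tail N Q hN hQ
  set T : ℝ := ∑ b ∈ Ioc (N / Q) N, 1 / (b : ℝ) with hTd
  have hT0 : 0 ≤ T := Finset.sum_nonneg fun b _ => by positivity
  have hle : N / Q ≤ N := Nat.div_le_self _ _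
  have hH : TY_H N ≤ 1 + Real.log N := by
    rw [TY_H_eq]; exact harmonic_le_one_add_log N
  have hunion : Icc 1 N = Icc 1 (N / Q) ∪ Ioc (N / Q) N := TY_union _ _ hle
  have hdis : Disjoint (Icc 1 (N / Q)) (Ioc (N / Q) N) := by
    rw [Finset.disjoint_left]
    intro a ha hb
    rw [Finset.mem_Icc] at ha
    rw [Finset.mem_Ioc] at hb
    omega
  have hA : ∀ a, TY_A ψ a N ≤ TY_A ψ a (N / Q) + T := by
    intro a
    unfold TY_A
    rw [hunion, Finset.filter_union, Finset.sum_union (Finset.disjoint_filter_filter hdis)]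
    refine add_le_add le_rfl ?_
    refine (Finset.sum_le_sum_of_subset_of_nonneg (Finset.filter_subset _ _)
      fun b _ _ => h0 b).trans ?_
    exact Finset.sum_le_sum fun b _ => h1 b
  have hA2 : ∀ a, TY_A ψ a (N / Q) ≤ TY_H N := by
    intro a
    unfold TY_A TY_H
    refine (Finset.sum_le_sum_of_subset_of_nonneg ((Finset.filter_subset _ _).trans
      (Finset.Icc_subset_Icc le_rfl hle)) fun b _ _ => h0 b).trans ?_
    exact Finset.sum_le_sum fun b _ => h1 b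
  have s1 : TY_B ψ ψ N ≤ ∑ a ∈ Icc 1 N, ψ a * TY_A ψ a (N / Q) + TY_H N * T := by
    unfold TY_B TY_H
    rw [Finset.sum_mul, ← Finset.sum_add_distrib]
    refine Finset.sum_le_sum fun a _ => ?_
    have k1 := mul_le_mul_of_nonneg_left (hA a) (h0 a)
    have k2 := mul_le_mul_of_nonneg_right (h1 a) hT0
    linarith
  have s2 : ∑ a ∈ Icc 1 N, ψ a * TY_A ψ a (N / Q) ≤ TY_B ψ ψ (N / Q) + T * TY_H N := by
    rw [hunion, Finset.sum_union hdis]
    refine add_le_add le_rfl ?_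
    rw [hTd, Finset.sum_mul]
    refine Finset.sum_le_sum fun a _ => ?_
    exact mul_le_mul (h1 a) (hA2 a) (TY_A_nonneg h0 a _) (by positivity)
  have hH0 : 0 ≤ TY_H N := Finset.sum_nonneg fun b _ => by positivity
  have s3 : TY_H N * T ≤ (1 + Real.log N) * (1 + Real.log Q) :=
    mul_le_mul hH hT hT0 (hH0.trans hH)
  linarith

/-! ### The function yy -/

theorem TY_yy_nonneg (W n : ℕ) : 0 ≤ yy W n := by
  unfold yy
  refine Finset.prod_nonneg fun l hl => ?_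
  rw [Finset.mem_filter] at hl
  have h1 : (1:ℝ) ≤ l := by exact_mod_cast (Nat.prime_of_mem_primeFactors hl.1).one_lt.le
  have : 1 / (l:ℝ) ≤ 1 := by rw [div_le_one (by linarith)]; exact h1
  linarith

theorem TY_yy_le_one (W n : ℕ) : yy W n ≤ 1 := by
  unfold yy
  refine Finset.prod_le_one (fun l hl => ?_) fun l hl => ?_
  · rw [Finset.mem_filter] at hl
    have h1 : (1:ℝ) ≤ l := by exact_mod_cast (Nat.prime_of_mem_primeFactors hl.1).one_lt.le
    have : 1 / (l:ℝ) ≤ 1 := by rw [div_le_one (by linarith)]; exact h1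
    linarith
  · have : (0:ℝ) ≤ 1 / (l:ℝ) := by positivity
    linarith

theorem TY_yy_mul (W : ℕ) {a b : ℕ} (h : Nat.Coprime a b) : yy W (a * b) = yy W a * yy W b := by
  unfold yy
  rw [Nat.Coprime.primeFactors_mul h, Finset.filter_union, Finset.prod_union]
  exact Finset.disjoint_filter_filter (Nat.Coprime.disjoint_primeFactors h)

theorem TY_yy_prime (W : ℕ) {l : ℕ} (hl : l.Prime) :
    yy W l = if l ∣ W then 1 else 1 - 1 / (l : ℝ) := by
  unfold yy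
  rw [Nat.Prime.primeFactors hl, Finset.filter_singleton]
  by_cases h : l ∣ W
  · rw [if_pos h, if_neg (by simpa using h)]; simp
  · rw [if_neg h, if_pos (by simpa using h)]; simp

theorem TY_yy_dvd (W : ℕ) {l n : ℕ} (hl : l.Prime) (hn : 0 < n) (h : l ∣ n) :
    yy W (l * n) = yy W n := by
  unfold yy
  rw [Nat.primeFactors_mul hl.ne_zero hn.ne', Nat.Prime.primeFactors hl]
  have : ({l} : Finset ℕ) ∪ n.primeFactors = n.primeFactors := by
    rw [Finset.union_eq_right, Finset.singleton_subset_iff, Nat.mem_primeFactors]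
    exact ⟨hl, h, hn.ne'⟩
  rw [this]

noncomputable def TY_f (W : ℕ) (n : ℕ) : ℝ := yy W n / n

theorem TY_f_nonneg (W n : ℕ) : 0 ≤ TY_f W n := div_nonneg (TY_yy_nonneg W n) (by positivity)

theorem TY_f_le (W n : ℕ) : TY_f W n ≤ 1 / (n : ℝ) := by
  unfold TY_f
  gcongr
  exact TY_yy_le_one W n

theorem TY_f_one (W : ℕ) {l : ℕ} (hl : l.Prime) (n : ℕ) (h : ¬ l ∣ n) :
    TY_f W (l * n) = (if l ∣ W then 1 else 1 - 1 / (l : ℝ)) / l * TY_f W n := by
  unfold TY_f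
  rw [TY_yy_mul W ((Nat.Prime.coprime_iff_not_dvd hl).2 h), TY_yy_prime W hl]
  push_cast
  rw [mul_div_mul_comm]

theorem TY_f_two (W : ℕ) {l : ℕ} (hl : l.Prime) (n : ℕ) (hn : 0 < n) (h : l ∣ n) :
    TY_f W (l * n) = TY_f W n / l := by
  unfold TY_f
  rw [TY_yy_dvd W hl hn h]
  push_cast
  rw [div_div, mul_comm]

theorem TY_VW (W N : ℕ) : VW W N = TY_B (TY_f W) (TY_f W) N := by
  unfold VW TY_B TY_A
  refine Finset.sum_congr rfl fun a _ => ?_
  rw [Finset.mul_sum]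
  have hf : (Icc 1 N).filter (fun b => Nat.Coprime a b) =
      (Icc 1 N).filter (fun b => Nat.Coprime b a) :=
    Finset.filter_congr fun b _ => Nat.coprime_comm
  rw [hf]
  refine Finset.sum_congr rfl fun b hb => ?_
  rw [Finset.mem_filter] at hb
  unfold TY_f
  rw [TY_yy_mul W hb.2.symm, mul_div_mul_comm]

/-- The same relations for the function without the multiples of `k`. -/
theorem TY_z_one {k l : ℕ} (hl : l.Prime) (hk : k.Prime) (hkl : k ≠ l) (φ : ℕ → ℝ) (c : ℝ)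
    (h1 : ∀ n, ¬ l ∣ n → φ (l * n) = c / l * φ n) (n : ℕ) (h : ¬ l ∣ n) :
    TY_0 k φ (l * n) = c / l * TY_0 k φ n := by
  have hcop : Nat.Coprime k l := (Nat.coprime_primes hk hl).2 hkl
  unfold TY_0
  by_cases hd : k ∣ n
  · rw [if_pos hd, if_pos (Dvd.dvd.mul_left hd l), mul_zero]
  · rw [if_neg hd, if_neg (fun h' => hd (hcop.dvd_of_dvd_mul_left h')), h1 n h]

theorem TY_z_two {k l : ℕ} (hl : l.Prime) (hk : k.Prime) (hkl : k ≠ l) (φ : ℕ → ℝ)
    (h2 : ∀ n, 0 < n → l ∣ n → φ (l * n) = φ n / l) (n : ℕ) (hn : 0 < n) (h : l ∣ n) :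
    TY_0 k φ (l * n) = TY_0 k φ n / l := by
  have hcop : Nat.Coprime k l := (Nat.coprime_primes hk hl).2 hkl
  unfold TY_0
  by_cases hd : k ∣ n
  · rw [if_pos hd, if_pos (Dvd.dvd.mul_left hd l), zero_div]
  · rw [if_neg hd, if_neg (fun h' => hd (hcop.dvd_of_dvd_mul_left h')), h2 n hn h]

theorem TY_same : TY_0 5 (TY_0 3 (TY_f 2)) = TY_0 5 (TY_0 3 (TY_f 30)) := by
  funext n
  unfold TY_0
  by_cases h5 : 5 ∣ n
  · rw [if_pos h5, if_pos h5]
  · rw [if_neg h5, if_neg h5]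
    by_cases h3 : 3 ∣ n
    · rw [if_pos h3, if_pos h3]
    · rw [if_neg h3, if_neg h3]
      unfold TY_f yy
      have : (n.primeFactors.filter fun l => ¬ l ∣ 2) =
          n.primeFactors.filter fun l => ¬ l ∣ 30 := by
        refine Finset.filter_congr fun l hl => not_congr ?_
        have hp := Nat.prime_of_mem_primeFactors hl
        have hd := Nat.dvd_of_mem_primeFactors hl
        constructor
        · intro h; exact h.trans (by norm_num)
        · intro h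
          have h6 : l ∣ 2 * (3 * 5) := h
          rcases (Nat.Prime.dvd_mul hp).1 h6 with h7 | h7
          · exact h7
          · rcases (Nat.Prime.dvd_mul hp).1 h7 with h8 | h8
            · rw [(Nat.prime_dvd_prime_iff_eq hp Nat.prime_three).1 h8] at hd
              exact absurd hd h3
            · rw [(Nat.prime_dvd_prime_iff_eq hp Nat.prime_five).1 h8] at hd
              exact absurd hd h5
      rw [this]

noncomputable def TY_u : ℕ → ℝ := TY_0 5 (TY_0 3 (TY_f 30))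

theorem TY_upper (N : ℕ) : VW 2 N ≤ 7 / 3 * TY_B TY_u TY_u N := by
  rw [TY_VW]
  have a1 := TY_B_up Nat.prime_three (TY_f 2) (TY_f_nonneg 2) (2 / 3) (by norm_num)
    (fun n h => by rw [TY_f_one 2 Nat.prime_three n h, if_neg (by norm_num)]; norm_num)
    (fun n hn h => TY_f_two 2 Nat.prime_three n hn h) N
  have a2 := TY_B_up Nat.prime_five (TY_0 3 (TY_f 2)) (TY_0_nonneg (TY_f_nonneg 2)) (4 / 5)
    (by norm_num)
    (fun n h => TY_z_one Nat.prime_five Nat.prime_three (by norm_num) (TY_f 2) (4 / 5)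
      (fun n h => by rw [TY_f_one 2 Nat.prime_five n h, if_neg (by norm_num)]; norm_num) n h)
    (fun n hn h => TY_z_two Nat.prime_five Nat.prime_three (by norm_num) (TY_f 2)
      (fun n hn h => TY_f_two 2 Nat.prime_five n hn h) n hn h) N
  rw [TY_same] at a2
  change _ ≤ _ * TY_B TY_u TY_u N at a2
  norm_num at a1 a2
  linarith

theorem TY_lower (K N : ℕ) : (3 - 5 / 2 * (1 / 3 : ℝ) ^ K) *
    TY_B TY_u TY_u (N / (3 ^ K * 5 ^ K)) ≤ VW 30 N := by
  rw [TY_VW]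
  have a1 := TY_B_lo Nat.prime_three (TY_f 30) (TY_f_nonneg 30) 1 (by norm_num)
    (fun n h => by rw [TY_f_one 30 Nat.prime_three n h, if_pos (by norm_num)])
    (fun n hn h => TY_f_two 30 Nat.prime_three n hn h) K N
  have a2 := TY_B_lo Nat.prime_five (TY_0 3 (TY_f 30)) (TY_0_nonneg (TY_f_nonneg 30)) 1
    (by norm_num)
    (fun n h => TY_z_one Nat.prime_five Nat.prime_three (by norm_num) (TY_f 30) 1
      (fun n h => by rw [TY_f_one 30 Nat.prime_five n h, if_pos (by norm_num)]) n h)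
    (fun n hn h => TY_z_two Nat.prime_five Nat.prime_three (by norm_num) (TY_f 30)
      (fun n hn h => TY_f_two 30 Nat.prime_five n hn h) n hn h) K (N / 3 ^ K)
  change _ * TY_B TY_u TY_u _ ≤ _ at a2
  rw [Nat.div_div_eq_div_mul] at a2
  have hU : 0 ≤ TY_B TY_u TY_u (N / (3 ^ K * 5 ^ K)) :=
    Finset.sum_nonneg fun a _ => mul_nonneg (TY_0_nonneg (TY_0_nonneg (TY_f_nonneg 30)) a)
      (TY_A_nonneg (TY_0_nonneg (TY_0_nonneg (TY_f_nonneg 30))) a _)
  set t : ℝ := (1 / 3 : ℝ) ^ K with ht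
  set s : ℝ := (1 / 5 : ℝ) ^ K with hs
  have ht0 : 0 ≤ t := by positivity
  have ht1 : t ≤ 1 := pow_le_one₀ (by norm_num) (by norm_num)
  have hs0 : 0 ≤ s := by positivity
  have hst : s ≤ t := pow_le_pow_left₀ (by norm_num) (by norm_num) K
  have b1 : (2 - t) * TY_B (TY_0 3 (TY_f 30)) (TY_0 3 (TY_f 30)) (N / 3 ^ K) ≤
      TY_B (TY_f 30) (TY_f 30) N := by
    refine le_trans (le_of_eq ?_) a1
    push_cast
    rw [← ht]
    ring
  have b2 : (3 / 2 - s / 2) * TY_B TY_u TY_u (N / (3 ^ K * 5 ^ K)) ≤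
      TY_B (TY_0 3 (TY_f 30)) (TY_0 3 (TY_f 30)) (N / 3 ^ K) := by
    refine le_trans (le_of_eq ?_) a2
    push_cast
    rw [← hs]
    ring
  have b3 := mul_le_mul_of_nonneg_left b2 (show (0:ℝ) ≤ 2 - t by linarith)
  have b4 : (3 - 5 / 2 * t) ≤ (2 - t) * (3 / 2 - s / 2) := by nlinarith
  have b5 := mul_le_mul_of_nonneg_right b4 hU
  linarith

theorem TY (h : VL_stmt) : TY_stmt := by
  intro ε hε
  -- choose K
  obtain ⟨K, hK⟩ := exists_pow_lt_of_lt_one (show (0:ℝ) < min (1 / 5) (ε / 4) by positivity)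
    (show (1 / 3 : ℝ) < 1 by norm_num)
  set t : ℝ := (1 / 3 : ℝ) ^ K with ht
  have ht0 : 0 ≤ t := by positivity
  have ht1 : t < 1 / 5 := hK.trans_le (min_le_left _ _)
  have ht2 : t < ε / 4 := hK.trans_le (min_le_right _ _)
  set Q : ℕ := 3 ^ K * 5 ^ K with hQ
  have hQ1 : 1 ≤ Q := Nat.one_le_iff_ne_zero.2 (by positivity)
  have hlQ : 0 ≤ Real.log Q := Real.log_natCast_nonneg Q
  set R : ℝ := max 1 (56 * (1 + Real.log Q) / ε) with hR
  refine ⟨⌈Real.exp R⌉₊ + 1, fun N hN => ?_⟩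
  have hN1 : 1 ≤ N := by omega
  have hlog : R ≤ Real.log N := by
    rw [Real.le_log_iff_exp_le (by exact_mod_cast hN1)]
    refine (Nat.le_ceil _).trans ?_
    exact_mod_cast (show ⌈Real.exp R⌉₊ ≤ N by omega)
  have hl1 : 1 ≤ Real.log N := (le_max_left _ _).trans hlog
  have hl2 : 56 * (1 + Real.log Q) ≤ ε * Real.log N := by
    have := (le_max_right _ _).trans hlog
    rw [div_le_iff₀ hε] at this
    linarith
  obtain ⟨hV, -⟩ := h 30 N (by norm_num) (dvd_refl _) (by omega)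
  have k1 := TY_upper N
  have k2 := TY_lower K N
  have k3 := TY_E TY_u (TY_0_nonneg (TY_0_nonneg (TY_f_nonneg 30)))
    (fun n => by
      unfold TY_u TY_0
      split_ifs
      · positivity
      · positivity
      · exact TY_f_le 30 n) N Q hN1 hQ1
  rw [← ht] at k2
  rw [← hQ] at k2
  set U : ℝ := TY_B TY_u TY_u (N / Q) with hU
  set V : ℝ := VW 30 N with hVd
  have hU0 : 0 ≤ U :=
    Finset.sum_nonneg fun a _ => mul_nonneg (TY_0_nonneg (TY_0_nonneg (TY_f_nonneg 30)) a)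
      (TY_A_nonneg (TY_0_nonneg (TY_0_nonneg (TY_f_nonneg 30))) a _)
  have hV0 : 0 ≤ V := le_trans (by positivity) hV
  -- U is at most 2 V / 5 (as 3 - 5/2 t ≥ 5/2)
  have hUV : U ≤ 2 / 5 * V := by nlinarith
  -- 3 U ≤ V + 5/2 t U
  have e1 : 3 * U ≤ V + ε / 4 * V := by
    have : 5 / 2 * t * U ≤ ε / 4 * V := by
      have g1 : t * U ≤ ε / 4 * (2 / 5 * V) := mul_le_mul ht2.le hUV hU0 (by positivity)
      linarith
    linarith
  have e2 : 7 / 3 * (2 * (1 + Real.log N) * (1 + Real.log Q)) ≤ ε / 6 * Real.log N ^ 2 := by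
    have g1 : 1 + Real.log N ≤ 2 * Real.log N := by linarith
    have g2 : (1 + Real.log N) * (1 + Real.log Q) ≤ 2 * Real.log N * (1 + Real.log Q) :=
      mul_le_mul_of_nonneg_right g1 (by linarith)
    have g3 : 56 * (1 + Real.log Q) * Real.log N ≤ ε * Real.log N * Real.log N :=
      mul_le_mul_of_nonneg_right hl2 (by linarith)
    nlinarith
  have e3 : ε / 6 * Real.log N ^ 2 ≤ ε / 2 * V := by nlinarith
  nlinarith

end Pool.Agent.helper11.TX
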